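import Pool.Agent.Helper71.HN.SheetP

/-! Project HP, row IND. -/

set_option autoImplicit false

namespace Pool.Agent.Helper71.HP

open Polynomial Pool.Agent.Helper71.JN Pool.Agent.Helper71.HN Pool.Agent.Helper77.HE

theorem IND : ST_IND := by
  intro F Ω _ _ _ _ K f g hfd hfs x y hcu hx M N
  classical
  have htr : Function.Injective (aeval x : K[X] →ₐ[K] Ω) := by
    rw [injective_iff_map_eq_zero]
    intro Q hQ
    by_contra h0
    exact hx (isAlgebraic_iff_isIntegral.1 ⟨Q, h0, hQ⟩)
  rw [Fintype.linearIndependent_iff]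
  intro u hu
  set A : K[X] := ∑ m : Fin M, C (u (Sum.inl m)) * X ^ (m : ℕ) with hA
  set B : K[X] := ∑ j : Fin N, C (u (Sum.inr j)) * X ^ (j : ℕ) with hB
  set P : K[X] := f.map (algebraMap F K) with hP
  have hE : y ^ 2 = aeval x P := by
    rw [hP, aeval_map_algebraMap]
    exact hcu
  have hPd : P.natDegree = 2 * g + 1 := by
    rw [hP, natDegree_map, hfd]
  have hP0 : P ≠ 0 := by
    intro h0
    rw [h0, natDegree_zero] at hPd
    omega
  have h1 : aeval x A + aeval x B * y = 0 := by
    rw [← hu, Fintype.sum_sum_type, hA, hB, map_sum, map_sum, Finset.sum_mul]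
    congr 1
    · refine Finset.sum_congr rfl fun m _ => ?_
      rw [map_mul, aeval_C, map_pow, aeval_X, Algebra.smul_def]
      rfl
    · refine Finset.sum_congr rfl fun m _ => ?_
      rw [map_mul, aeval_C, map_pow, aeval_X, Algebra.smul_def, mul_assoc]
      rfl
  have h2 : A ^ 2 = B ^ 2 * P := by
    apply htr
    rw [map_pow, map_mul, map_pow, ← hE]
    linear_combination (aeval x A - aeval x B * y) * h1
  have hB0 : B = 0 := by
    by_contra hB0
    have h3 := congrArg natDegree h2
    rw [natDegree_pow, natDegree_mul (pow_ne_zero 2 hB0) hP0, natDegree_pow, hPd] at h3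
    omega
  have hA0 : A = 0 := by
    rw [hB0] at h2
    have : A ^ 2 = 0 := by rw [h2]; ring
    exact pow_eq_zero_iff (two_ne_zero) |>.1 this
  have key : ∀ (n : ℕ) (a : Fin n → K), ∑ m : Fin n, C (a m) * X ^ (m : ℕ) = 0 →
      ∀ m, a m = 0 := by
    intro n a ha m
    have h3 := congrArg (fun Q : K[X] => Q.coeff (m : ℕ)) ha
    simp only [finsetSum_coeff, coeff_zero, coeff_C_mul, coeff_X_pow] at h3
    rw [Finset.sum_eq_single m] at h3
    · simpa using h3
    · intro i _ him
      rw [if_neg (fun h => him (Fin.ext h.symm)), mul_zero]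
    · intro h4
      exact absurd (Finset.mem_univ m) h4
  rintro (m | j)
  · exact key M (fun m => u (Sum.inl m)) hA0 m
  · exact key N (fun j => u (Sum.inr j)) hB0 j

end Pool.Agent.Helper71.HP
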